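import Mathlib

/-!
# Interacting urns with full interaction (p = 1): definitions
-/

open MeasureTheory Filter
open scoped unitInterval

namespace Pool.Agent.H404Z.Urn

/-- A composition of `d` urns: the numbers of black balls and the numbers of red balls, urn by urn. -/
abbrev State (d : ℕ) : Type := (Fin d → ℕ) × (Fin d → ℕ)

/-- Total number of black balls. -/
def black {d : ℕ} (x : State d) : ℕ := ∑ i, x.1 i

/-- Total number of red balls. -/
def red {d : ℕ} (x : State d) : ℕ := ∑ i, x.2 i

/-- The probability `W(B*) / (W(B*) + W(R*))` that a given urn receives a black ball. -/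
noncomputable def pBlack {d : ℕ} (W : ℕ → ℝ) (x : State d) : ℝ :=
  W (black x) / (W (black x) + W (red x))

/-- One step, driven by `d` numbers `u i` in the unit interval: urn `i` receives a black ball if
`u i < W(B*) / (W(B*) + W(R*))` and a red ball otherwise. -/
noncomputable def step {d : ℕ} (W : ℕ → ℝ) (x : State d) (u : Fin d → I) : State d :=
  (fun i => if (u i : ℝ) < pBlack W x then x.1 i + 1 else x.1 i,
   fun i => if (u i : ℝ) < pBlack W x then x.2 i else x.2 i + 1)

/-- The urn process started at `x0` and driven by the array `ω n i`. -/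
noncomputable def path {d : ℕ} (W : ℕ → ℝ) (x0 : State d) (ω : ℕ → Fin d → I) : ℕ → State d
  | 0 => x0
  | n + 1 => step W (path W x0 ω n) (ω n)

/-- The law of an array `ω n i` of independent uniform random variables on the unit interval. -/
noncomputable def unifArray (d : ℕ) : Measure (ℕ → Fin d → I) :=
  Measure.infinitePi fun _ : ℕ => Measure.pi fun _ : Fin d => (volume : Measure I)

/-- Monopoly: from some time on only balls of one colour are added. -/
def Monopoly {d : ℕ} (W : ℕ → ℝ) (x0 : State d) : Set (ℕ → Fin d → I) :=
  {ω | (∀ᶠ n in atTop, red (path W x0 ω (n + 1)) = red (path W x0 ω n)) ∨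
    (∀ᶠ n in atTop, black (path W x0 ω (n + 1)) = black (path W x0 ω n))}

end Pool.Agent.H404Z.Urn
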