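import Mathlib

/-!
# The weight sequence and the potential function
-/

namespace Pool.Agent.H404Z.Urn

/-- the weight sequence -/
noncomputable def Wt (x : ℕ) : ℝ :=
  if Even (x - Nat.sqrt x ^ 2) then ((Nat.sqrt x : ℝ) + 1) ^ 4 else 2 ^ (x ^ 2)

lemma sqrt_block (n j : ℕ) (hj : j ≤ 2 * n) : Nat.sqrt (n ^ 2 + j) = n := by
  symm
  rw [Nat.eq_sqrt']
  constructor
  · omega
  · nlinarith

lemma Wt_slow (n i : ℕ) (hi : i ≤ n) : Wt (n ^ 2 + 2 * i) = ((n : ℝ) + 1) ^ 4 := by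
  unfold Wt
  rw [sqrt_block n (2 * i) (by omega)]
  have : n ^ 2 + 2 * i - n ^ 2 = 2 * i := by omega
  rw [this, if_pos (by simp)]

lemma Wt_fast (n i : ℕ) (hi : i < n) :
    Wt (n ^ 2 + 2 * i + 1) = 2 ^ ((n ^ 2 + 2 * i + 1) ^ 2) := by
  unfold Wt
  have h := sqrt_block n (2 * i + 1) (by omega)
  rw [← add_assoc] at h
  rw [h]
  have : n ^ 2 + 2 * i + 1 - n ^ 2 = 2 * i + 1 := by omega
  rw [this, if_neg (by simp)]

lemma Wt_pos (x : ℕ) : 0 < Wt x := by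
  unfold Wt
  split_ifs <;> positivity

lemma sq_le_Wt (x : ℕ) : (x : ℝ) ^ 2 ≤ Wt x := by
  unfold Wt
  split_ifs
  · have h := Nat.lt_succ_sqrt' x
    have h2 : (x : ℝ) ≤ ((Nat.sqrt x : ℝ) + 1) ^ 2 := by
      have : (x : ℝ) ≤ ((Nat.succ (Nat.sqrt x) ^ 2 : ℕ) : ℝ) := by exact_mod_cast h.le
      simpa using this
    calc (x : ℝ) ^ 2 ≤ (((Nat.sqrt x : ℝ) + 1) ^ 2) ^ 2 := by gcongr
      _ = _ := by ring
  · have : x ^ 2 < 2 ^ (x ^ 2) := Nat.lt_two_pow_self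
    exact_mod_cast this.le

lemma summable_Wt : Summable fun n : ℕ => 1 / Wt (n + 1) := by
  have h : Summable fun n : ℕ => 1 / ((n + 1 : ℕ) : ℝ) ^ 2 :=
    (summable_nat_add_iff 1).2 (Real.summable_one_div_nat_pow.2 (by norm_num))
  refine Summable.of_nonneg_of_le (fun n => (one_div_pos.2 (Wt_pos _)).le) (fun n => ?_) h
  exact one_div_le_one_div_of_le (by positivity) (sq_le_Wt _)

/-- small correction -/
noncomputable def psi (x : ℕ) : ℝ := 4 * (1 / 2) ^ x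

/-- tail -/
noncomputable def Tl (n : ℕ) : ℝ := 4 * (3 / 4) ^ n

lemma psi_pos (x : ℕ) : 0 < psi x := by unfold psi; positivity

lemma Tl_pos (x : ℕ) : 0 < Tl x := by unfold Tl; positivity

lemma psi_add_le (x k : ℕ) : psi (x + k) ≤ psi x := by
  unfold psi
  have : (1 / 2 : ℝ) ^ (x + k) ≤ (1 / 2) ^ x :=
    pow_le_pow_of_le_one (by norm_num) (by norm_num) (by omega)
  linarith

lemma psi_two (x : ℕ) : psi (x + 2) + 2 * (1 / 2) ^ x ≤ psi x := by
  unfold psi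
  have : (0 : ℝ) < (1 / 2) ^ x := by positivity
  rw [pow_add]
  nlinarith

lemma Tl_succ (n : ℕ) : Tl (n + 1) + (3 / 4) ^ n = Tl n := by
  unfold Tl
  ring

/-- admissible values of the potential -/
def Val0 (B R : ℕ) (v : ℝ) : Prop :=
  ∃ n i j : ℕ, 2 ≤ n ∧
    ((i ≤ n ∧ j ≤ n ∧ B = n ^ 2 + 2 * i ∧ R = n ^ 2 + 2 * j ∧
        v = psi B + psi R + Tl (n + 1) + (3 / 4) ^ (n - max i j)) ∨
     (i < n ∧ B = n ^ 2 + 2 * i + 1 ∧ R = B ∧
        v = psi B + psi R + Tl (n + 1) + (1 / 2) * (3 / 4) ^ (n - (i + 1))) ∨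
     (i < j ∧ j ≤ n ∧ B = n ^ 2 + 2 * i + 1 ∧ R = n ^ 2 + 2 * j + 1 ∧
        v = psi B + psi R + Tl (n + 1)))

lemma Val0.nonneg {B R : ℕ} {v : ℝ} (h : Val0 B R v) : 0 ≤ v := by
  obtain ⟨n, i, j, -, h | h | h⟩ := h
  · obtain ⟨-, -, -, -, rfl⟩ := h
    have := psi_pos B; have := psi_pos R; have := Tl_pos (n + 1); positivity
  · obtain ⟨-, -, -, rfl⟩ := h
    have := psi_pos B; have := psi_pos R; have := Tl_pos (n + 1); positivity
  · obtain ⟨-, -, -, -, rfl⟩ := h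
    have := psi_pos B; have := psi_pos R; have := Tl_pos (n + 1); positivity

/-- the set whose infimum is the potential -/
def PotSet (B R : ℕ) : Set ℝ := {v | v = 1 ∨ Val0 B R v ∨ Val0 R B v}

/-- the potential -/
noncomputable def Pot (B R : ℕ) : ℝ := sInf (PotSet B R)

lemma PotSet_nonneg {B R : ℕ} {v : ℝ} (h : v ∈ PotSet B R) : 0 ≤ v := by
  rcases h with rfl | h | h
  · norm_num
  · exact h.nonneg
  · exact h.nonneg

lemma PotSet_bdd (B R : ℕ) : BddBelow (PotSet B R) := ⟨0, fun _ h => PotSet_nonneg h⟩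

lemma Pot_nonneg (B R : ℕ) : 0 ≤ Pot B R := Real.sInf_nonneg fun _ h => PotSet_nonneg h

lemma Pot_le_one (B R : ℕ) : Pot B R ≤ 1 := csInf_le (PotSet_bdd B R) (Or.inl rfl)

lemma Pot_le {B R : ℕ} {v : ℝ} (h : Val0 B R v) : Pot B R ≤ v :=
  csInf_le (PotSet_bdd B R) (Or.inr (Or.inl h))

lemma Pot_le' {B R : ℕ} {v : ℝ} (h : Val0 R B v) : Pot B R ≤ v :=
  csInf_le (PotSet_bdd B R) (Or.inr (Or.inr h))

lemma Pot_symm (B R : ℕ) : Pot B R = Pot R B := by
  unfold Pot PotSet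
  congr 1
  ext v
  simp only [Set.mem_ofPred_eq]
  tauto

lemma block_of_Pot_lt {B R : ℕ} (h : Pot B R < 1) :
    ∃ n : ℕ, n ^ 2 ≤ B ∧ n ^ 2 ≤ R ∧ B ≤ (n + 1) ^ 2 ∧ R ≤ (n + 1) ^ 2 := by
  obtain ⟨v, hv, hv1⟩ := exists_lt_of_csInf_lt (s := PotSet B R) ⟨1, Or.inl rfl⟩ h
  have key : ∀ B R : ℕ, Val0 B R v →
      ∃ n : ℕ, n ^ 2 ≤ B ∧ n ^ 2 ≤ R ∧ B ≤ (n + 1) ^ 2 ∧ R ≤ (n + 1) ^ 2 := by
    intro B R h
    obtain ⟨n, i, j, -, h | h | h⟩ := h
    · obtain ⟨h1, h2, rfl, rfl, -⟩ := h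
      exact ⟨n, by omega, by omega, by nlinarith, by nlinarith⟩
    · obtain ⟨h1, rfl, rfl, -⟩ := h
      exact ⟨n, by omega, by omega, by nlinarith, by nlinarith⟩
    · obtain ⟨h1, h2, rfl, rfl, -⟩ := h
      exact ⟨n, by omega, by omega, by nlinarith, by nlinarith⟩
  rcases hv with rfl | hv | hv
  · exact absurd hv1 (lt_irrefl _)
  · exact key _ _ hv
  · obtain ⟨n, a, b, c, d⟩ := key _ _ hv
    exact ⟨n, b, a, d, c⟩

/-- probability of black -/
noncomputable def pr (B R : ℕ) : ℝ := Wt B / (Wt B + Wt R)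

lemma pr_nonneg (B R : ℕ) : 0 ≤ pr B R := by
  have := Wt_pos B; have := Wt_pos R
  unfold pr; positivity

lemma pr_symm (B R : ℕ) : pr R B = 1 - pr B R := by
  have := Wt_pos B; have := Wt_pos R
  unfold pr; field_simp; ring

lemma pr_le_one (B R : ℕ) : pr B R ≤ 1 := by
  have := pr_nonneg R B
  rw [pr_symm] at this
  linarith

lemma pr_half {B R : ℕ} (h : Wt B = Wt R) : pr B R = 1 / 2 := by
  have := Wt_pos R
  unfold pr; rw [h]; field_simp; ring

lemma pr_small {B R y : ℕ} (h : 2 ^ y * Wt B ≤ Wt R) : pr B R ≤ (1 / 2) ^ y := by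
  have := Wt_pos R; have := Wt_pos B
  unfold pr
  rw [div_le_iff₀ (by positivity), one_div, inv_pow, inv_mul_eq_div, le_div_iff₀ (by positivity)]
  nlinarith

/-- expected value of the potential after one step -/
noncomputable def Ex (B R : ℕ) : ℝ :=
  pr B R ^ 2 * Pot (B + 2) R + 2 * (pr B R * (1 - pr B R)) * Pot (B + 1) (R + 1) +
    (1 - pr B R) ^ 2 * Pot B (R + 2)

lemma Ex_symm (B R : ℕ) : Ex B R = Ex R B := by
  unfold Ex
  rw [pr_symm B R, Pot_symm (R + 2) B, Pot_symm (R + 1) (B + 1), Pot_symm R (B + 2)]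
  ring

lemma Ex_le_one (B R : ℕ) : Ex B R ≤ 1 := by
  unfold Ex
  have h0 := pr_nonneg B R
  have h1 := pr_le_one B R
  have a := Pot_le_one (B + 2) R
  have b := Pot_le_one (B + 1) (R + 1)
  have c := Pot_le_one B (R + 2)
  set p := pr B R
  have e1 : p ^ 2 * Pot (B + 2) R ≤ p ^ 2 := by nlinarith [sq_nonneg p]
  have e2 : 2 * (p * (1 - p)) * Pot (B + 1) (R + 1) ≤ 2 * (p * (1 - p)) := by
    have : 0 ≤ p * (1 - p) := mul_nonneg h0 (by linarith)
    nlinarith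
  have e3 : (1 - p) ^ 2 * Pot B (R + 2) ≤ (1 - p) ^ 2 := by nlinarith [sq_nonneg (1 - p)]
  nlinarith

lemma Ex_le_red (B R : ℕ) : Ex B R ≤ Pot B (R + 2) + 2 * pr B R := by
  unfold Ex
  have h0 := pr_nonneg B R
  have h1 := pr_le_one B R
  have a := Pot_le_one (B + 2) R
  have b := Pot_le_one (B + 1) (R + 1)
  have c := Pot_nonneg B (R + 2)
  set p := pr B R
  have e1 : p ^ 2 * Pot (B + 2) R ≤ p ^ 2 := by nlinarith [sq_nonneg p]
  have e2 : 2 * (p * (1 - p)) * Pot (B + 1) (R + 1) ≤ 2 * (p * (1 - p)) := by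
    have : 0 ≤ p * (1 - p) := mul_nonneg h0 (by linarith)
    nlinarith
  have e3 : (1 - p) ^ 2 * Pot B (R + 2) ≤ Pot B (R + 2) := by
    have : (1 - p) ^ 2 ≤ 1 := by nlinarith
    nlinarith
  nlinarith [sq_nonneg p]

lemma Ex_half {B R : ℕ} (h : Wt B = Wt R) :
    Ex B R = (1 / 4) * Pot (B + 2) R + (1 / 2) * Pot (B + 1) (R + 1) + (1 / 4) * Pot B (R + 2) := by
  unfold Ex
  rw [pr_half h]
  ring

lemma three_four_mono {a b : ℕ} (h : a ≤ b) : (3 / 4 : ℝ) ^ b ≤ (3 / 4) ^ a :=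
  pow_le_pow_of_le_one (by norm_num) (by norm_num) h

lemma Ex_le_slow (n i j : ℕ) (hn : 2 ≤ n) (hi : i ≤ n) (hj : j ≤ n) :
    Ex (n ^ 2 + 2 * i) (n ^ 2 + 2 * j) ≤
      psi (n ^ 2 + 2 * i) + psi (n ^ 2 + 2 * j) + Tl (n + 1) + (3 / 4) ^ (n - max i j) := by
  set B := n ^ 2 + 2 * i with hB
  set R := n ^ 2 + 2 * j with hR
  have pB := psi_pos B
  have pR := psi_pos R
  have pT := Tl_pos (n + 1)
  by_cases hm : max i j = n
  · rw [hm, Nat.sub_self, pow_zero]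
    have := Ex_le_one B R
    linarith
  have hi' : i < n := by omega
  have hj' : j < n := by omega
  rw [Ex_half (by rw [Wt_slow n i hi, Wt_slow n j hj])]
  have hpow : (3 / 4 : ℝ) ^ (n - max i j) = (3 / 4) * (3 / 4) ^ (n - (max i j + 1)) := by
    have : n - max i j = (n - (max i j + 1)) + 1 := by omega
    rw [this, pow_succ]; ring
  set t : ℝ := (3 / 4) ^ (n - (max i j + 1)) with ht
  have tpos : 0 < t := by positivity
  have a1 := psi_add_le B 1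
  have a2 := psi_add_le B 2
  have b1 := psi_add_le R 1
  have b2 := psi_add_le R 2
  have h1 : Pot (B + 2) R ≤ psi B + psi R + Tl (n + 1) + t := by
    have := Pot_le (B := B + 2) (R := R) ⟨n, i + 1, j, hn,
      Or.inl ⟨by omega, hj, by omega, hR, rfl⟩⟩
    have h2 : (3 / 4 : ℝ) ^ (n - max (i + 1) j) ≤ t := three_four_mono (by omega)
    linarith
  have h2 : Pot B (R + 2) ≤ psi B + psi R + Tl (n + 1) + t := by
    have := Pot_le (B := B) (R := R + 2) ⟨n, i, j + 1, hn,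
      Or.inl ⟨hi, by omega, hB, by omega, rfl⟩⟩
    have h2 : (3 / 4 : ℝ) ^ (n - max i (j + 1)) ≤ t := three_four_mono (by omega)
    linarith
  have h3 : Pot (B + 1) (R + 1) ≤ psi B + psi R + Tl (n + 1) + (1 / 2) * t := by
    rcases lt_trichotomy i j with hij | hij | hij
    · have := Pot_le (B := B + 1) (R := R + 1) ⟨n, i, j, hn,
        Or.inr (Or.inr ⟨hij, hj, by omega, by omega, rfl⟩)⟩
      linarith
    · subst hij
      have := Pot_le (B := B + 1) (R := R + 1) ⟨n, i, i, hn,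
        Or.inr (Or.inl ⟨hi', by omega, by omega, rfl⟩)⟩
      have e : t = (3 / 4) ^ (n - (i + 1)) := by rw [ht, max_self]
      rw [← e] at this
      linarith
    · have := Pot_le' (B := B + 1) (R := R + 1) ⟨n, j, i, hn,
        Or.inr (Or.inr ⟨hij, hi, by omega, by omega, rfl⟩)⟩
      linarith
  rw [hpow]
  linarith

lemma Ex_le_diag (n i : ℕ) (hn : 2 ≤ n) (hi : i < n) :
    Ex (n ^ 2 + 2 * i + 1) (n ^ 2 + 2 * i + 1) ≤
      psi (n ^ 2 + 2 * i + 1) + psi (n ^ 2 + 2 * i + 1) + Tl (n + 1) +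
        (1 / 2) * (3 / 4) ^ (n - (i + 1)) := by
  set B := n ^ 2 + 2 * i + 1 with hB
  rw [Ex_half rfl]
  have a1 := psi_add_le B 1
  have a2 := psi_add_le B 2
  have h1 := Pot_le (B := B) (R := B + 2) ⟨n, i, i + 1, hn,
      Or.inr (Or.inr ⟨by omega, by omega, hB, by omega, rfl⟩)⟩
  have h2 := Pot_le (B := B + 1) (R := B + 1) ⟨n, i + 1, i + 1, hn,
      Or.inl ⟨by omega, by omega, by omega, by omega, rfl⟩⟩
  rw [max_self] at h2
  rw [Pot_symm (B + 2) B]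
  linarith

lemma Ex_le_fast (n i j : ℕ) (hn : 2 ≤ n) (hij : i < j) (hj : j ≤ n) :
    Ex (n ^ 2 + 2 * i + 1) (n ^ 2 + 2 * j + 1) ≤
      psi (n ^ 2 + 2 * i + 1) + psi (n ^ 2 + 2 * j + 1) + Tl (n + 1) := by
  set B := n ^ 2 + 2 * i + 1 with hB
  set R := n ^ 2 + 2 * j + 1 with hR
  rcases hj.lt_or_eq with hj' | hj'
  · have hw : 2 ^ R * Wt B ≤ Wt R := by
      rw [hB, hR, Wt_fast n i (by omega), Wt_fast n j hj', ← hB, ← hR, ← pow_add]
      apply pow_le_pow_right₀ (by norm_num)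
      have : B + 1 ≤ R := by omega
      nlinarith
    have h1 := pr_small hw
    have h2 := Ex_le_red B R
    have h3 := Pot_le (B := B) (R := R + 2) ⟨n, i, j + 1, hn,
      Or.inr (Or.inr ⟨by omega, by omega, hB, by omega, rfl⟩)⟩
    have h4 := psi_two R
    linarith
  · have hR' : R = (n + 1) ^ 2 + 2 * 0 := by rw [hR, hj']; ring
    have hw : 2 ^ B * Wt R ≤ Wt B := by
      rw [hR', Wt_slow (n + 1) 0 (by omega), hB, Wt_fast n i (by omega), ← hB]
      have hb : n + 2 ≤ B := by nlinarith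
      have hb5 : 5 ≤ B := by nlinarith
      have h2 : n + 2 ≤ 2 ^ B := hb.trans Nat.lt_two_pow_self.le
      have h3 : (((n + 1 : ℕ) : ℝ) + 1) ≤ 2 ^ B := by
        have : ((n + 2 : ℕ) : ℝ) ≤ ((2 ^ B : ℕ) : ℝ) := by exact_mod_cast h2
        push_cast at this ⊢
        linarith
      calc (2 : ℝ) ^ B * (((n + 1 : ℕ) : ℝ) + 1) ^ 4 ≤ 2 ^ B * (2 ^ B) ^ 4 := by gcongr
        _ = 2 ^ (5 * B) := by ring
        _ ≤ 2 ^ (B ^ 2) := by
          apply pow_le_pow_right₀ (by norm_num)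
          nlinarith
    have h1 := pr_small hw
    have h2 := Ex_le_red R B
    have h4 := psi_two B
    have h3 : Pot R (B + 2) ≤ psi (B + 2) + psi R + Tl (n + 1) := by
      rcases (Nat.succ_le_of_lt hij).lt_or_eq with h | h
      · exact Pot_le' (B := R) (R := B + 2) ⟨n, i + 1, j, hn,
          Or.inr (Or.inr ⟨h, hj, by omega, hR, rfl⟩)⟩
      · have := Pot_le' (B := R) (R := B + 2) ⟨n + 1, 0, 0, by omega,
          Or.inl ⟨by omega, by omega, by omega, hR', rfl⟩⟩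
        have e := Tl_succ (n + 1)
        simp only [max_self, Nat.sub_zero] at this
        linarith
    rw [Ex_symm]
    linarith

lemma Ex_le_Val0 {B R : ℕ} {v : ℝ} (h : Val0 B R v) : Ex B R ≤ v := by
  obtain ⟨n, i, j, hn, h | h | h⟩ := h
  · obtain ⟨h1, h2, rfl, rfl, rfl⟩ := h
    exact Ex_le_slow n i j hn h1 h2
  · obtain ⟨h1, rfl, rfl, rfl⟩ := h
    exact Ex_le_diag n i hn h1
  · obtain ⟨h1, h2, rfl, rfl, rfl⟩ := h
    exact Ex_le_fast n i j hn h1 h2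

theorem Ex_le_Pot (B R : ℕ) : Ex B R ≤ Pot B R := by
  refine le_csInf ⟨1, Or.inl rfl⟩ ?_
  rintro v (rfl | h | h)
  · exact Ex_le_one B R
  · exact Ex_le_Val0 h
  · rw [Ex_symm]; exact Ex_le_Val0 h

theorem Pot_start : Pot 64 64 < 1 := by
  have := Pot_le (B := 64) (R := 64) ⟨8, 0, 0, by norm_num,
    Or.inl ⟨by norm_num, by norm_num, by norm_num, by norm_num, rfl⟩⟩
  refine this.trans_lt ?_
  unfold psi Tl
  norm_num

end Pool.Agent.H404Z.Urn
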