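import Pool.Agent.H404Z.Urn.Defs
import Pool.Agent.H404Z.Urn.Pot

open MeasureTheory Filter ProbabilityTheory
open scoped unitInterval ENNReal

namespace Pool.Agent.H404Z.Urn

section chain

variable {S E : Type} [MeasurableSpace S] [MeasurableSpace E]

/-- a chain driven by noise -/
def chain (g : S → E → S) (s0 : S) (ω : ℕ → E) : ℕ → S
  | 0 => s0
  | n + 1 => g (chain g s0 ω n) (ω n)

lemma measurable_chain (g : S → E → S) (hg : Measurable fun z : S × E => g z.1 z.2) (s0 : S)
    (n : ℕ) : Measurable fun ω : ℕ → E => chain g s0 ω n := by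
  induction n with
  | zero => exact measurable_const
  | succ n ih => exact hg.comp (ih.prodMk (measurable_pi_apply n))

omit [MeasurableSpace S] [MeasurableSpace E] in
lemma chain_congr (g : S → E → S) (s0 : S) (ω ω' : ℕ → E) (n : ℕ) (h : ∀ i < n, ω i = ω' i) :
    chain g s0 ω n = chain g s0 ω' n := by
  induction n with
  | zero => rfl
  | succ n ih =>
    simp only [chain]
    rw [ih fun i hi => h i (by omega), h n (by omega)]

lemma indep_chain [Nonempty E] (ν : Measure E) [IsProbabilityMeasure ν] (g : S → E → S)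
    (hg : Measurable fun z : S × E => g z.1 z.2) (s0 : S) (n : ℕ) :
    IndepFun (fun ω : ℕ → E => chain g s0 ω n) (fun ω => ω n)
      (Measure.infinitePi fun _ : ℕ => ν) := by
  classical
  have h0 : iIndepFun (fun (i : ℕ) (ω : ℕ → E) => ω i) (Measure.infinitePi fun _ : ℕ => ν) :=
    iIndepFun_infinitePi (P := fun _ : ℕ => ν) (X := fun _ x => x) (fun _ => measurable_id)
  have h1 := h0.indepFun_finset (Finset.range n) {n} (by simp) (fun i => measurable_pi_apply i)
  let ext : (Finset.range n → E) → (ℕ → E) := fun y i =>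
    if h : i ∈ Finset.range n then y ⟨i, h⟩ else Classical.arbitrary E
  have hext : Measurable ext := by
    refine measurable_pi_lambda _ fun i => ?_
    by_cases h : i ∈ Finset.range n
    · simp only [ext, dif_pos h]; exact measurable_pi_apply _
    · simp only [ext, dif_neg h]; exact measurable_const
  have hφ : Measurable fun y => chain g s0 (ext y) n := (measurable_chain g hg s0 n).comp hext
  have hψ : Measurable fun y : (({n} : Finset ℕ) → E) => y ⟨n, Finset.mem_singleton_self n⟩ :=
    measurable_pi_apply _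
  have h2 := h1.comp hφ hψ
  convert h2 using 1
  · ext ω
    simp only [Function.comp]
    refine chain_congr g s0 _ _ n fun i hi => ?_
    simp only [ext]
    rw [dif_pos (Finset.mem_range.2 hi)]
  · rfl

lemma lintegral_chain_le [Nonempty E] (ν : Measure E) [IsProbabilityMeasure ν] (g : S → E → S)
    (hg : Measurable fun z : S × E => g z.1 z.2) (s0 : S) (H : S → ℝ≥0∞) (hH : Measurable H)
    (hstep : ∀ s, ∫⁻ u, H (g s u) ∂ν ≤ H s) (n : ℕ) :
    ∫⁻ ω, H (chain g s0 ω n) ∂(Measure.infinitePi fun _ : ℕ => ν) ≤ H s0 := by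
  induction n with
  | zero => simp [chain]
  | succ n ih =>
    set μ := Measure.infinitePi fun _ : ℕ => ν with hμ
    have hm := measurable_chain g hg s0 n
    have hi := indep_chain ν g hg s0 n
    rw [indepFun_iff_map_prod_eq_prod_map_map hm.aemeasurable
      (measurable_pi_apply n).aemeasurable] at hi
    have he : μ.map (fun ω => ω n) = ν := Measure.infinitePi_map_eval _ n
    rw [← hμ, he] at hi
    have hHg : Measurable fun z : S × E => H (g z.1 z.2) := hH.comp hg
    calc ∫⁻ ω, H (chain g s0 ω (n + 1)) ∂μ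
        = ∫⁻ z, H (g z.1 z.2) ∂(μ.map fun ω => (chain g s0 ω n, ω n)) := by
          rw [lintegral_map hHg (hm.prodMk (measurable_pi_apply n))]
          rfl
      _ = ∫⁻ s, ∫⁻ u, H (g s u) ∂ν ∂(μ.map fun ω => chain g s0 ω n) := by
          rw [hi, lintegral_prod _ hHg.aemeasurable]
      _ ≤ ∫⁻ s, H s ∂(μ.map fun ω => chain g s0 ω n) := lintegral_mono hstep
      _ = ∫⁻ ω, H (chain g s0 ω n) ∂μ := lintegral_map hH hm
      _ ≤ H s0 := ih

end chain

lemma measurable_step {d : ℕ} (W : ℕ → ℝ) (x : State d) : Measurable (step W x) := by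
  have hm : ∀ i, MeasurableSet {u : Fin d → I | (u i : ℝ) < pBlack W x} := fun i =>
    measurableSet_lt (measurable_subtype_coe.comp (measurable_pi_apply i)) measurable_const
  refine Measurable.prodMk ?_ ?_
  · exact measurable_pi_lambda _ fun i => Measurable.ite (hm i) measurable_const measurable_const
  · exact measurable_pi_lambda _ fun i => Measurable.ite (hm i) measurable_const measurable_const

/-- potential of a state -/
noncomputable def HS (x : State 2) : ℝ := Pot (black x) (red x)

lemma vol_lt (p : ℝ) (h0 : 0 ≤ p) (h1 : p ≤ 1) :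
    (volume : Measure I) {u : I | (u : ℝ) < p} = ENNReal.ofReal p := by
  have : {u : I | (u : ℝ) < p} = Set.Iio (⟨p, h0, h1⟩ : I) := by
    ext u; simp [← Subtype.coe_lt_coe]
  rw [this, unitInterval.volume_Iio]

lemma vol_ge (p : ℝ) (h0 : 0 ≤ p) (h1 : p ≤ 1) :
    (volume : Measure I) {u : I | ¬ (u : ℝ) < p} = ENNReal.ofReal (1 - p) := by
  have : {u : I | ¬ (u : ℝ) < p} = Set.Ici (⟨p, h0, h1⟩ : I) := by
    ext u; simp [← Subtype.coe_le_coe]
  rw [this, unitInterval.volume_Ici]

lemma lintegral_step (x : State 2) :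
    ∫⁻ u, ENNReal.ofReal (HS (step Wt x u)) ∂(Measure.pi fun _ : Fin 2 => (volume : Measure I))
      ≤ ENNReal.ofReal (HS x) := by
  set p := pBlack Wt x with hp
  have hp' : p = pr (black x) (red x) := rfl
  have h0 : 0 ≤ p := hp' ▸ pr_nonneg _ _
  have h1 : p ≤ 1 := hp' ▸ pr_le_one _ _
  set A : Set I := {u : I | (u : ℝ) < p} with hA
  set C : Set I := {u : I | ¬ (u : ℝ) < p} with hC
  have mA : MeasurableSet A := measurableSet_lt measurable_subtype_coe measurable_const
  have mC : MeasurableSet C := mA.compl
  set B := black x with hB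
  set R := red x with hR
  have hB' : B = x.1 0 + x.1 1 := by simp [hB, black]
  have hR' : R = x.2 0 + x.2 1 := by simp [hR, red]
  have hf : (fun u : Fin 2 → I => ENNReal.ofReal (HS (step Wt x u))) = fun u =>
      (Set.pi Set.univ ![A, A]).indicator (fun _ => ENNReal.ofReal (Pot (B + 2) R)) u +
      (Set.pi Set.univ ![A, C]).indicator (fun _ => ENNReal.ofReal (Pot (B + 1) (R + 1))) u +
      (Set.pi Set.univ ![C, A]).indicator (fun _ => ENNReal.ofReal (Pot (B + 1) (R + 1))) u +
      (Set.pi Set.univ ![C, C]).indicator (fun _ => ENNReal.ofReal (Pot B (R + 2))) u := by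
    ext u
    simp only [Set.indicator, Set.mem_pi, Set.mem_univ, true_imp_iff, Fin.forall_fin_two,
      Matrix.cons_val_zero, Matrix.cons_val_one, hA, hC, Set.mem_ofPred_eq, HS, step, black, red,
      Fin.sum_univ_two, ← hp, hB', hR']
    by_cases a : (u 0 : ℝ) < p <;> by_cases b : (u 1 : ℝ) < p <;> simp only [a, b] <;> simp <;>
      congr 2 <;> omega
  have mm : ∀ s t : Set I, MeasurableSet s → MeasurableSet t →
      MeasurableSet (Set.pi Set.univ ![s, t]) := fun s t hs ht =>
    MeasurableSet.univ_pi fun i => by fin_cases i <;> simpa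
  have vv : ∀ s t : Set I, (Measure.pi fun _ : Fin 2 => (volume : Measure I))
      (Set.pi Set.univ ![s, t]) = volume s * volume t := fun s t => by
    rw [Measure.pi_pi]; simp
  rw [hf, lintegral_add_right, lintegral_add_right, lintegral_add_right,
    lintegral_indicator_const (mm _ _ mA mA), lintegral_indicator_const (mm _ _ mA mC),
    lintegral_indicator_const (mm _ _ mC mA), lintegral_indicator_const (mm _ _ mC mC),
    vv, vv, vv, vv, vol_lt p h0 h1, vol_ge p h0 h1]
  · have q0 : 0 ≤ 1 - p := by linarith
    have a := Pot_nonneg (B + 2) R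
    have b := Pot_nonneg (B + 1) (R + 1)
    have c := Pot_nonneg B (R + 2)
    rw [← ENNReal.ofReal_mul h0, ← ENNReal.ofReal_mul h0, ← ENNReal.ofReal_mul q0,
      ← ENNReal.ofReal_mul q0, ← ENNReal.ofReal_mul a, ← ENNReal.ofReal_mul b,
      ← ENNReal.ofReal_mul b, ← ENNReal.ofReal_mul c,
      ← ENNReal.ofReal_add (by positivity) (by positivity),
      ← ENNReal.ofReal_add (by positivity) (by positivity),
      ← ENNReal.ofReal_add (by positivity) (by positivity)]
    apply ENNReal.ofReal_le_ofReal
    have := Ex_le_Pot B R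
    unfold Ex at this
    rw [← hp'] at this
    unfold HS
    rw [← hB, ← hR]
    nlinarith
  · exact measurable_const.indicator (mm _ _ mA mC)
  · exact measurable_const.indicator (mm _ _ mC mA)
  · exact measurable_const.indicator (mm _ _ mC mC)

/-- the stopped step -/
noncomputable def gstop (x : State 2) (u : Fin 2 → I) : State 2 :=
  if HS x < 1 then step Wt x u else x

lemma measurable_gstop : Measurable fun z : State 2 × (Fin 2 → I) => gstop z.1 z.2 := by
  refine measurable_from_prod_countable_right fun x => ?_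
  by_cases h : HS x < 1
  · simp only [gstop, if_pos h]; exact measurable_step Wt x
  · simp only [gstop, if_neg h]; exact measurable_const

lemma stopped_spec (x0 : State 2) (ω : ℕ → Fin 2 → I) (n : ℕ)
    (h : HS (chain gstop x0 ω n) < 1) :
    chain gstop x0 ω n = path Wt x0 ω n ∧ ∀ m ≤ n, HS (path Wt x0 ω m) < 1 := by
  induction n with
  | zero =>
    refine ⟨rfl, fun m hm => ?_⟩
    obtain rfl : m = 0 := by omega
    exact h
  | succ n ih =>
    by_cases h' : HS (chain gstop x0 ω n) < 1
    · obtain ⟨e, ih'⟩ := ih h'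
      have e' : chain gstop x0 ω (n + 1) = path Wt x0 ω (n + 1) := by
        simp only [chain, path, gstop]
        rw [if_pos h', e]
      refine ⟨e', fun m hm => ?_⟩
      rcases hm.lt_or_eq with hm | rfl
      · exact ih' m (by omega)
      · rw [← e']; exact h
    · exfalso
      have : chain gstop x0 ω (n + 1) = chain gstop x0 ω n := by
        simp only [chain, gstop]
        rw [if_neg h']
      rw [this] at h
      exact h' h

lemma total_path (x0 : State 2) (ω : ℕ → Fin 2 → I) (n : ℕ) :
    black (path Wt x0 ω n) + red (path Wt x0 ω n) = black x0 + red x0 + 2 * n := by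
  induction n with
  | zero => rfl
  | succ n ih =>
    simp only [path, step, black, red, Fin.sum_univ_two] at ih ⊢
    split_ifs <;> omega

lemma eventually_const {f : ℕ → ℕ} (h : ∀ᶠ n in atTop, f (n + 1) = f n) :
    ∃ N r, ∀ n, N ≤ n → f n = r := by
  obtain ⟨N, hN⟩ := eventually_atTop.1 h
  refine ⟨N, f N, fun n hn => ?_⟩
  induction n, hn using Nat.le_induction with
  | base => rfl
  | succ n hn ih => rw [hN n hn, ih]

lemma not_monopoly (x0 : State 2) (ω : ℕ → Fin 2 → I) (h : ∀ m, HS (path Wt x0 ω m) < 1) :
    ω ∉ Monopoly Wt x0 := by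
  rintro (hm | hm)
  · obtain ⟨N, r, hN⟩ := eventually_const (f := fun n => red (path Wt x0 ω n)) hm
    set m := N + (r + 1) ^ 2 + r with hmdef
    obtain ⟨n, a, b, c, d⟩ := block_of_Pot_lt (h m)
    have e : red (path Wt x0 ω m) = r := hN m (by omega)
    have t := total_path x0 ω m
    rw [e] at b t
    have h1 : n ≤ r := by nlinarith
    have h2 : (n + 1) ^ 2 ≤ (r + 1) ^ 2 := by gcongr
    have h3 : 0 < (r + 1) ^ 2 := by positivity
    omega
  · obtain ⟨N, r, hN⟩ := eventually_const (f := fun n => black (path Wt x0 ω n)) hm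
    set m := N + (r + 1) ^ 2 + r with hmdef
    obtain ⟨n, a, b, c, d⟩ := block_of_Pot_lt (h m)
    have e : black (path Wt x0 ω m) = r := hN m (by omega)
    have t := total_path x0 ω m
    rw [e] at a t
    have h1 : n ≤ r := by nlinarith
    have h2 : (n + 1) ^ 2 ≤ (r + 1) ^ 2 := by gcongr
    have h3 : 0 < (r + 1) ^ 2 := by positivity
    omega

theorem monopoly_le (x0 : State 2) :
    unifArray 2 (Monopoly Wt x0) ≤ ENNReal.ofReal (HS x0) := by
  set A : ℕ → Set (ℕ → Fin 2 → I) := fun n => {ω | 1 ≤ HS (chain gstop x0 ω n)} with hA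
  have hsub : Monopoly Wt x0 ⊆ ⋃ n, A n := by
    intro ω hω
    by_contra hc
    refine not_monopoly x0 ω (fun m => ?_) hω
    simp only [Set.mem_iUnion, not_exists, hA, Set.mem_ofPred_eq, not_le] at hc
    exact (stopped_spec x0 ω m (hc m)).2 m le_rfl
  have hmono : Monotone A := by
    refine monotone_nat_of_le_succ fun n ω hω => ?_
    simp only [hA, Set.mem_ofPred_eq] at hω ⊢
    have : chain gstop x0 ω (n + 1) = chain gstop x0 ω n := by
      simp only [chain, gstop]
      rw [if_neg (not_lt.2 hω)]
    rw [this]; exact hω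
  refine (measure_mono hsub).trans ?_
  rw [hmono.measure_iUnion]
  refine iSup_le fun n => ?_
  have hH : Measurable fun x : State 2 => ENNReal.ofReal (HS x) := measurable_of_countable _
  have key := lintegral_chain_le (Measure.pi fun _ : Fin 2 => (volume : Measure I)) gstop
    measurable_gstop x0 (fun x => ENNReal.ofReal (HS x)) hH (fun s => by
      by_cases h : HS s < 1
      · simp only [gstop, if_pos h]; exact lintegral_step s
      · simp only [gstop, if_neg h]; simp) n
  refine le_trans ?_ key
  have hm : Measurable fun ω => ENNReal.ofReal (HS (chain gstop x0 ω n)) :=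
    hH.comp (measurable_chain gstop measurable_gstop x0 n)
  have := mul_meas_ge_le_lintegral₀ (μ := unifArray 2) hm.aemeasurable 1
  rw [one_mul] at this
  refine le_trans (measure_mono fun ω hω => ?_) this
  simp only [hA, Set.mem_ofPred_eq] at hω ⊢
  exact ENNReal.one_le_ofReal.2 hω

theorem main : unifArray 2 (Monopoly Wt (fun _ => 32, fun _ => 32)) < 1 := by
  refine (monopoly_le _).trans_lt ?_
  rw [ENNReal.ofReal_lt_one]
  have : HS (fun _ => 32, fun _ => 32) = Pot 64 64 := by simp [HS, black, red]
  rw [this]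
  exact Pot_start

end Pool.Agent.H404Z.Urn
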